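import Pool.Agent.Work.MP_327059_nt.AA.Asm
import Pool.Agent.Work.MP_327059_nt.AA.AlgB
import Pool.Agent.Work.MP_327059_nt.AA.FinB

/-!
# The conjecture of Gel'fond and Schneider in degree 2 for almost all logarithms

`β` is algebraic of degree 2. Among three logarithms of algebraic numbers which span a plane over
`ℚ` and are pairwise linearly independent, at least one `l` is such that `l` and `exp (β l)` are
algebraically independent. In particular, for every algebraic number which is not a root of unity,
all but at most two determinations `l` of its logarithm have this property.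
-/

set_option autoImplicit false

namespace Pool.Agent.Results.MP_327059_nt.AlmostAllLogarithms

open Pool.Agent.Work.MP_327059_nt.AA

theorem result : ∀ β : ℂ, (minpoly ℚ β).natDegree = 2 →
    (∀ l : Fin 3 → ℂ, (∀ i, IsAlgebraic ℚ (Complex.exp (l i))) →
      (∀ i j, i ≠ j → LinearIndependent ℚ ![l i, l j]) → ¬ LinearIndependent ℚ l →
      ∃ i, AlgebraicIndependent ℚ ![l i, Complex.exp (β * l i)]) ∧
    (∀ l : ℂ, IsAlgebraic ℚ (Complex.exp l) → (∀ n : ℕ, 0 < n → Complex.exp l ^ n ≠ 1) →
      {k : ℤ | ¬ AlgebraicIndependent ℚ ![l + 2 * Real.pi * Complex.I * k,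
        Complex.exp (β * (l + 2 * Real.pi * Complex.I * k))]}.encard ≤ 2) :=
  pr_FinB full_T23 full_GS pr_AlgB pr_Pair

end Pool.Agent.Results.MP_327059_nt.AlmostAllLogarithms
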