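import Pool.Agent.Work.MP_327059_nt.FL.Fin

/-!
# The conjecture of Gel'fond and Schneider in degree 2 up to finitely many lines

`V` is a finite dimensional `ℚ`-vector space of logarithms of algebraic numbers and `β` is an
irrational algebraic number. The logarithms `z` in `V` for which `z` and `exp (β z)` are
algebraically dependent lie in finitely many subspaces of dimension at most 2. For quadratic `β`
they form finitely many lines, no three of which lie in a plane.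
-/

set_option autoImplicit false

namespace Pool.Agent.Results.MP_327059_nt.FinitelyManyLogarithms

open Pool.Agent.Work.MP_327059_nt

theorem result : ∀ β : ℂ, IsAlgebraic ℚ β → (∀ q : ℚ, β ≠ q) →
    ∀ V : Submodule ℚ ℂ, FiniteDimensional ℚ V → (∀ z ∈ V, IsAlgebraic ℚ (Complex.exp z)) →
    ∃ T : Set (Submodule ℚ ℂ), T.Finite ∧ (∀ W ∈ T, W ≤ V ∧ Module.finrank ℚ W ≤ 2) ∧
      (∀ z ∈ V, z ≠ 0 → ¬ AlgebraicIndependent ℚ ![z, Complex.exp (β * z)] → ∃ W ∈ T, z ∈ W) ∧
      ((minpoly ℚ β).natDegree = 2 →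
        (∀ W ∈ T, Module.finrank ℚ W = 1 ∧
          ∀ z ∈ W, ¬ AlgebraicIndependent ℚ ![z, Complex.exp (β * z)]) ∧
        (∀ W₁ ∈ T, ∀ W₂ ∈ T, ∀ W₃ ∈ T, W₁ ≠ W₂ → W₁ ≠ W₃ → W₂ ≠ W₃ → ¬ W₁ ≤ W₂ ⊔ W₃)) :=
  fun β hβ hirr V hfin hV => FL.final β hβ hirr V hfin hV

end Pool.Agent.Results.MP_327059_nt.FinitelyManyLogarithms
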