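import Pool.Agent.Work.MP_327059_nt.GL.Asm
import Pool.Agent.Work.MP_327059_nt.GL.Den

/-!
# The conjecture of Gel'fond and Schneider for generic logarithms, in all degrees

`β` is algebraic of degree `d ≥ 2`, and `l 0, …, l (n-1)` are logarithms of algebraic numbers,
linearly independent over `ℚ`, with `n` large in terms of `d`. There is a nonzero form of degree
`d` such that for every rational vector `v` which is not a zero of the form, the `d` numbers
`Λ, exp (β Λ), …, exp (β^(d-1) Λ)` with `Λ = ∑ v i * l i` are algebraically independent.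
In particular at most `d (2N+1)^(n-1)` integer vectors of the box `[-N, N]^n` are exceptional.
-/

set_option autoImplicit false

namespace Pool.Agent.Results.MP_327059_nt.GenericLogarithms

open Pool.Agent.Work.MP_327059_nt.GL

theorem result :
    ∀ d : ℕ, 2 ≤ d → ∃ n₀ : ℕ, ∀ β : ℂ, IsAlgebraic ℚ β → (minpoly ℚ β).natDegree = d →
      ∀ n : ℕ, n₀ ≤ n → ∀ l : Fin n → ℂ, LinearIndependent ℚ l →
        (∀ i, IsAlgebraic ℚ (Complex.exp (l i))) →
          (∃ P : MvPolynomial (Fin n) ℂ, P ≠ 0 ∧ P.IsHomogeneous d ∧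
            ∀ v : Fin n → ℚ, MvPolynomial.eval (fun i => (v i : ℂ)) P ≠ 0 →
              AlgebraicIndependent ℚ (fun j : Fin d =>
                if (j : ℕ) = 0 then ∑ i, (v i : ℂ) * l i
                else Complex.exp (β ^ (j : ℕ) * ∑ i, (v i : ℂ) * l i))) ∧
          ∀ N : ℕ, {v : Fin n → ℤ | (∀ i, |v i| ≤ (N : ℤ)) ∧
            ¬ AlgebraicIndependent ℚ (fun j : Fin d =>
                if (j : ℕ) = 0 then ∑ i, (v i : ℂ) * l i
                else Complex.exp (β ^ (j : ℕ) * ∑ i, (v i : ℂ) * l i))}.ncard ≤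
              d * (2 * N + 1) ^ (n - 1) := by
  intro d hd
  obtain ⟨n₀, h⟩ := x_Main d hd
  refine ⟨max n₀ 1, fun β hβ hβd n hn l hl he => ?_⟩
  obtain ⟨P, hP, hPh, hPi⟩ := h β hβ hβd n (le_trans (le_max_left _ _) hn) l hl he
  refine ⟨⟨P, hP, hPh, hPi⟩, fun N => ?_⟩
  refine den_box P hP d N (hPh.totalDegree hP).le (le_trans (le_max_right _ _) hn) _ ?_
  rintro v ⟨hv1, hv2⟩
  refine ⟨hv1, ?_⟩
  by_contra hne
  apply hv2
  have h1 := hPi (fun i => ((v i : ℤ) : ℚ)) (by simpa using hne)
  simpa using h1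

end Pool.Agent.Results.MP_327059_nt.GenericLogarithms
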