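import Pool.Agent.Work.MP_327059_nt.QF.AsmA
import Pool.Agent.Work.MP_327059_nt.QF.AsmB

/-!
# The borderline case `d = 2` of the conjecture of Gelfond and Schneider

`β` is a quadratic algebraic integer, real or not, and `F ⊆ ℂ` is a number field containing `β`
of degree at most `2` (that is, `F = ℚ(β)`), or of degree at most `4` and not contained in `ℝ`.
If `l ≠ 0` and `e ^ l` lies in `F`, then `l` does not lie in the field `F(e ^ (β l))`: with
`α = e ^ l`, the number `log α` is not a rational function of `α ^ β` over `F`.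
-/

namespace Pool.Agent.Results.MP_327059_nt.LogNotInField

theorem result (F : IntermediateField ℚ ℂ) [FiniteDimensional ℚ F]
    (hF : Module.finrank ℚ F ≤ 2 ∨ (Module.finrank ℚ F ≤ 4 ∧ ∃ x ∈ F, x.im ≠ 0))
    (β l : ℂ) (t n : ℤ) (hβF : β ∈ F) (hβ : β ^ 2 = t * β - n) (hirr : ∀ r : ℚ, β ≠ r)
    (hl : l ≠ 0) (hα : Complex.exp l ∈ F) :
    l ∉ IntermediateField.adjoin F {Complex.exp (β * l)} := by
  have : NumberField F := ⟨⟩
  intro hmem
  obtain ⟨D, hφ, -, -⟩ := GSQ.hAlgF F β l t n hβF hβ hirr hl hα hmem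
  refine GSQ.hFin F D.φ D.Y ?_ (GSQ.hIfaceF F D)
  rw [hφ]
  rcases hF with h2 | ⟨h4, x, hx, him⟩
  · have : 1 ≤ GSQ.nphi (algebraMap F ℂ) := by
      unfold GSQ.nphi
      split_ifs <;> norm_num
    omega
  · have : GSQ.nphi (algebraMap F ℂ) = 2 := by
      unfold GSQ.nphi
      rw [if_neg]
      intro h
      have h1 := RingHom.congr_fun h ⟨x, hx⟩
      have h2 : (starRingEnd ℂ) x = x := h1
      exact him (Complex.conj_eq_iff_im.mp h2)
    omega

end Pool.Agent.Results.MP_327059_nt.LogNotInField
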